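import Mathlib

/-!
# Words over a group and their branching levels
-/

set_option autoImplicit false
set_option linter.unusedSectionVars false

namespace Pool.Agent.Y598.Circ

/-- The sign of an element of `ZMod 2`. -/
def sg (m : ZMod 2) : ℤ := if m = 0 then 1 else -1

theorem sg_add : ∀ m m' : ZMod 2, sg (m + m') = sg m * sg m' := by decide

theorem sg_sq : ∀ m : ZMod 2, sg m * sg m = 1 := by decide

theorem sg_zero : sg 0 = 1 := rfl

theorem sg_sum {ι : Type} (s : Finset ι) (f : ι → ZMod 2) :
    sg (∑ i ∈ s, f i) = ∏ i ∈ s, sg (f i) := by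
  classical
  induction s using Finset.induction_on with
  | empty => rfl
  | insert a s ha ih => rw [Finset.sum_insert ha, Finset.prod_insert ha, sg_add, ih]

theorem sg_smul_inj {A : Type} [AddCommGroup A] (m : ZMod 2) {x y : A}
    (h : sg m • x = sg m • y) : x = y := by
  have h1 : (sg m * sg m) • x = (sg m * sg m) • y := by
    rw [mul_smul, mul_smul, h]
  rwa [sg_sq, one_smul, one_smul] at h1

variable {a : ℕ} {A : Type}

/-- The first position at which two words differ (`a` if they are equal). -/
noncomputable def br (u v : Fin a → A) : ℕ := sInf {i : ℕ | ∀ h : i < a, u ⟨i, h⟩ ≠ v ⟨i, h⟩}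

theorem br_mem (u v : Fin a → A) : ∀ h : br u v < a, u ⟨br u v, h⟩ ≠ v ⟨br u v, h⟩ := by
  have h1 : ({i : ℕ | ∀ h : i < a, u ⟨i, h⟩ ≠ v ⟨i, h⟩}).Nonempty :=
    ⟨a, fun h => absurd h (lt_irrefl a)⟩
  exact Nat.sInf_mem h1

theorem br_le (u v : Fin a → A) : br u v ≤ a :=
  Nat.sInf_le (fun h => absurd h (lt_irrefl a))

theorem eq_of_lt_br {u v : Fin a → A} {i : Fin a} (h : (i : ℕ) < br u v) : u i = v i := by
  have h1 := Nat.notMem_of_lt_sInf h
  by_contra h2
  exact h1 fun _ => h2

theorem ne_of_eq_br {u v : Fin a → A} {i : Fin a} (h : (i : ℕ) = br u v) : u i ≠ v i := by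
  obtain ⟨i, hi⟩ := i
  simp only at h
  subst h
  exact br_mem u v hi

theorem le_br {u v : Fin a → A} {i : ℕ} (hi : i ≤ a) (h : ∀ l : Fin a, (l : ℕ) < i → u l = v l) :
    i ≤ br u v := by
  by_contra h1
  push Not at h1
  have h2 : br u v < a := by omega
  exact br_mem u v h2 (h _ h1)

theorem br_eq {u v : Fin a → A} {i : Fin a} (h : ∀ l : Fin a, l < i → u l = v l)
    (hi : u i ≠ v i) : br u v = i := by
  refine le_antisymm ?_ (le_br i.2.le h)
  by_contra h1
  push Not at h1
  exact hi (eq_of_lt_br h1)

theorem br_eq_top {u v : Fin a → A} : br u v = a ↔ u = v := by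
  constructor
  · intro h
    funext i
    exact eq_of_lt_br (by rw [h]; exact i.2)
  · rintro rfl
    exact le_antisymm (br_le _ _) (le_br le_rfl fun _ _ => rfl)

theorem br_self (u : Fin a → A) : br u u = a := br_eq_top.2 rfl

theorem br_comm (u v : Fin a → A) : br u v = br v u := by
  unfold br
  simp only [ne_comm]

/-- If `v` branches off from `u` before `w` does then it branches off from `w` at the same place. -/
theorem br_of_lt {u v w : Fin a → A} (h : br u v < br u w) : br w v = br u v := by
  have h1 : br u v < a := lt_of_lt_of_le h (br_le _ _)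
  refine br_eq (i := ⟨br u v, h1⟩) (fun l hl => ?_) ?_
  · have hl' : (l : ℕ) < br u v := hl
    rw [← eq_of_lt_br hl']
    exact (eq_of_lt_br (hl'.trans h)).symm
  · intro h2
    apply br_mem u v h1
    rw [← h2]
    exact eq_of_lt_br (u := u) (v := w) (i := ⟨br u v, h1⟩) h

theorem min_le_br (u v w : Fin a → A) : min (br u v) (br u w) ≤ br v w := by
  refine le_br ((min_le_left _ _).trans (br_le _ _)) fun l hl => ?_
  rw [lt_min_iff] at hl
  rw [← eq_of_lt_br hl.1]
  exact eq_of_lt_br hl.2

variable [AddCommGroup A]

/-- The tuples `S` and `S'` branch at the same levels, and the differences at the branchings are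
the same up to the signs `η`. -/
def Comp (η : Fin a → ZMod 2) {n : ℕ} (S S' : Fin n → Fin a → A) : Prop :=
  ∀ s t, br (S s) (S t) = br (S' s) (S' t) ∧
    ∀ i : Fin a, (i : ℕ) = br (S s) (S t) → S' s i - S' t i = sg (η i) • (S s i - S t i)

theorem Comp.comp {η : Fin a → ZMod 2} {n m : ℕ} {S S' : Fin n → Fin a → A} (h : Comp η S S')
    (σ : Fin m → Fin n) : Comp η (S ∘ σ) (S' ∘ σ) := fun s t => h (σ s) (σ t)

/-- The relation between `u` and `u'`: they are in the same position to `S` and `S'`. -/
def Ext (η : Fin a → ZMod 2) {n : ℕ} (S S' : Fin n → Fin a → A) (u u' : Fin a → A) : Prop :=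
  (∀ t, br u (S t) = br u' (S' t) ∧
    ∀ i : Fin a, (i : ℕ) = br u (S t) → u' i - S' t i = sg (η i) • (u i - S t i)) ∧
  ∀ i : Fin a, (∀ t, br u (S t) < i) → u' i = u i

theorem exists_ext {η : Fin a → ZMod 2} {n : ℕ} {S S' : Fin n → Fin a → A} (h : Comp η S S')
    (u : Fin a → A) : ∃ u', Ext η S S' u u' := by
  rcases Nat.eq_zero_or_pos n with rfl | hn
  · exact ⟨u, fun t => t.elim0, fun _ _ => rfl⟩
  have : Nonempty (Fin n) := ⟨⟨0, hn⟩⟩
  obtain ⟨s, hs⟩ := Finite.exists_max fun t => br u (S t)
  set l := br u (S s) with hl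
  refine ⟨fun i => if (i : ℕ) < l then S' s i else if (i : ℕ) = l then
    S' s i + sg (η i) • (u i - S s i) else u i, ?_, ?_⟩
  · intro t
    obtain ⟨hr, hd⟩ := h s t
    rcases (hs t).lt_or_eq with hq | hq
    · -- `S t` branches off before
      have h1 : br (S s) (S t) = br u (S t) := br_of_lt hq
      have h2 : br (S' s) (S' t) = br u (S t) := by rw [← hr, h1]
      have hqa : br u (S t) < a := lt_of_lt_of_le hq (br_le _ _)
      constructor
      · symm
        refine br_eq (i := ⟨br u (S t), hqa⟩) (fun i hi => ?_) ?_
        · have hi' : (i : ℕ) < br u (S t) := hi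
          rw [if_pos (hi'.trans hq)]
          exact eq_of_lt_br (by rw [h2]; exact hi')
        · rw [if_pos hq]
          exact ne_of_eq_br (by rw [h2])
      · intro i hi
        beta_reduce
        rw [if_pos (by rw [hi]; exact hq), hd i (by rw [h1]; exact hi)]
        have h3 : u i = S s i := eq_of_lt_br (by rw [hi]; exact hq)
        rw [h3]
    · -- the branching is at the same place
      have hle : l ≤ br (S s) (S t) := by
        have := min_le_br u (S s) (S t)
        rw [← hl, hq, min_self] at this
        exact this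
      have hle' : l ≤ br (S' s) (S' t) := by rwa [← hr]
      have hdl : ∀ i : Fin a, (i : ℕ) = l → S' s i - S' t i = sg (η i) • (S s i - S t i) := by
        intro i hi
        rcases hle.lt_or_eq with h1 | h1
        · rw [eq_of_lt_br (u := S s) (v := S t) (by rw [hi]; exact h1),
            eq_of_lt_br (u := S' s) (v := S' t) (by rw [hi, ← hr]; exact h1), sub_self, sub_self,
            smul_zero]
        · exact hd i (by rw [hi, h1])
      have hdu : ∀ i : Fin a, (i : ℕ) = l →
          S' s i + sg (η i) • (u i - S s i) - S' t i = sg (η i) • (u i - S t i) := by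
        intro i hi
        have h1 : S' s i + sg (η i) • (u i - S s i) - S' t i =
            sg (η i) • (u i - S s i) + (S' s i - S' t i) := by abel
        rw [h1, hdl i hi, ← smul_add, sub_add_sub_cancel]
      constructor
      · rw [hq]
        symm
        rcases (br_le u (S s)).lt_or_eq with h1 | h1
        · refine br_eq (i := ⟨l, h1⟩) (fun i hi => ?_) ?_
          · have hi' : (i : ℕ) < l := hi
            rw [if_pos hi']
            exact eq_of_lt_br (hi'.trans_le hle')
          · rw [if_neg (lt_irrefl l), if_pos rfl, ← sub_ne_zero, hdu ⟨l, h1⟩ rfl]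
            intro h2
            have h3 := sg_smul_inj (η ⟨l, h1⟩) (h2.trans (smul_zero _).symm)
            rw [sub_eq_zero] at h3
            exact ne_of_eq_br (u := u) (v := S t) (i := ⟨l, h1⟩) (by rw [hq]) h3
        · have h2 : l = a := h1
          have h3 : br (S' s) (S' t) = a := le_antisymm (br_le _ _) (h2.symm.le.trans hle')
          rw [h2, br_eq_top]
          funext i
          rw [if_pos i.2]
          exact congrFun (br_eq_top.1 h3) i
      · intro i hi
        rw [hq] at hi
        beta_reduce
        rw [if_neg (by omega), if_pos hi]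
        exact hdu i hi
  · intro i hi
    have h1 := hi s
    beta_reduce
    rw [if_neg (by omega), if_neg (by omega)]

theorem ext_unique {η : Fin a → ZMod 2} {n : ℕ} {S S' : Fin n → Fin a → A} {u₁ u₂ u' : Fin a → A}
    (h₁ : Ext η S S' u₁ u') (h₂ : Ext η S S' u₂ u') : u₁ = u₂ := by
  funext i
  by_cases h : ∃ t, (i : ℕ) ≤ br u' (S' t)
  · obtain ⟨t, ht⟩ := h
    obtain ⟨e1, d1⟩ := h₁.1 t
    obtain ⟨e2, d2⟩ := h₂.1 t
    rcases ht.lt_or_eq with h3 | h3
    · rw [eq_of_lt_br (u := u₁) (v := S t) (by rw [e1]; exact h3),
        eq_of_lt_br (u := u₂) (v := S t) (by rw [e2]; exact h3)]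
    · have h4 := (d1 i (by rw [e1]; exact h3)).symm.trans (d2 i (by rw [e2]; exact h3))
      exact sub_left_injective (sg_smul_inj _ h4)
  · push Not at h
    rw [← h₁.2 i fun t => by rw [(h₁.1 t).1]; exact h t,
      ← h₂.2 i fun t => by rw [(h₂.1 t).1]; exact h t]

theorem comp_snoc {η : Fin a → ZMod 2} {n : ℕ} {S S' : Fin n → Fin a → A} (h : Comp η S S')
    {u u' : Fin a → A} (hu : Ext η S S' u u') :
    Comp η (Fin.snoc (α := fun _ => Fin a → A) S u) (Fin.snoc (α := fun _ => Fin a → A) S' u') := by
  intro s t
  induction s using Fin.lastCases with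
  | last =>
    induction t using Fin.lastCases with
    | last =>
      simp only [Fin.snoc_last]
      refine ⟨by rw [br_self, br_self], fun i hi => ?_⟩
      rw [br_self] at hi
      have := i.2
      omega
    | cast t =>
      simp only [Fin.snoc_last, Fin.snoc_castSucc]
      exact hu.1 t
  | cast s =>
    induction t using Fin.lastCases with
    | last =>
      simp only [Fin.snoc_last, Fin.snoc_castSucc]
      obtain ⟨h1, h2⟩ := hu.1 s
      rw [br_comm, br_comm (S' s)]
      refine ⟨h1, fun i hi => ?_⟩
      rw [← neg_sub, h2 i hi, ← neg_sub (u i), smul_neg]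
    | cast t =>
      simp only [Fin.snoc_castSucc]
      exact h s t

open Classical in
/-- The levels at which the words of a tuple branch. -/
noncomputable def lvls {n : ℕ} (S : Fin n → Fin a → A) : Finset (Fin a) :=
  Finset.univ.filter fun i => ∃ s t, br (S s) (S t) = i

theorem mem_lvls {n : ℕ} {S : Fin n → Fin a → A} {i : Fin a} :
    i ∈ lvls S ↔ ∃ s t, br (S s) (S t) = i := by
  unfold lvls
  simp

theorem card_lvls {n : ℕ} (S : Fin n → Fin a → A) : (lvls S).card ≤ n := by
  classical
  induction n with
  | zero =>
    rw [Nat.le_zero, Finset.card_eq_zero]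
    ext i
    rw [mem_lvls]
    constructor
    · rintro ⟨s, -⟩
      exact s.elim0
    · intro h
      exact absurd h (Finset.notMem_empty i)
  | succ n ih =>
    have h0 := ih (fun s => S s.castSucc)
    rcases Nat.eq_zero_or_pos n with rfl | hn
    · have h1 : lvls S = ∅ := by
        ext i
        rw [mem_lvls]
        constructor
        · rintro ⟨s, t, h⟩
          have h2 : s = t := Fin.ext (by omega)
          subst h2
          rw [br_self] at h
          have := i.2
          omega
        · intro h
          exact absurd h (Finset.notMem_empty i)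
      rw [h1]
      simp
    · have : Nonempty (Fin n) := ⟨⟨0, hn⟩⟩
      set u := S (Fin.last n) with hu
      obtain ⟨s₀, hs₀⟩ := Finite.exists_max fun t : Fin n => br u (S t.castSucc)
      have hsub : lvls S ⊆ lvls (fun s : Fin n => S s.castSucc) ∪
          (Finset.univ.filter fun i : Fin a => (i : ℕ) = br u (S s₀.castSucc)) := by
        intro i hi
        rw [mem_lvls] at hi
        rw [Finset.mem_union, mem_lvls, Finset.mem_filter]
        have key : ∀ t : Fin n, br u (S t.castSucc) = i →
            (∃ s t : Fin n, br (S s.castSucc) (S t.castSucc) = i) ∨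
            (i ∈ Finset.univ ∧ (i : ℕ) = br u (S s₀.castSucc)) := by
          intro t ht
          rcases (hs₀ t).lt_or_eq with h1 | h1
          · left
            exact ⟨s₀, t, (br_of_lt h1).trans ht⟩
          · right
            exact ⟨Finset.mem_univ _, by rw [← ht, h1]⟩
        obtain ⟨s, t, hst⟩ := hi
        induction s using Fin.lastCases with
        | last =>
          induction t using Fin.lastCases with
          | last =>
            rw [br_self] at hst
            have := i.2
            omega
          | cast t => exact key t hst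
        | cast s =>
          induction t using Fin.lastCases with
          | last =>
            rw [br_comm] at hst
            exact key s hst
          | cast t => exact Or.inl ⟨s, t, hst⟩
      refine (Finset.card_le_card hsub).trans ((Finset.card_union_le _ _).trans ?_)
      refine Nat.add_le_add h0 ?_
      rw [Finset.card_le_one]
      intro x hx y hy
      rw [Finset.mem_filter] at hx hy
      exact Fin.ext (hx.2.trans hy.2.symm)

theorem lvls_of_comp {η : Fin a → ZMod 2} {n : ℕ} {S S' : Fin n → Fin a → A} (h : Comp η S S') :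
    lvls S = lvls S' := by
  ext i
  rw [mem_lvls, mem_lvls]
  constructor
  · rintro ⟨s, t, h1⟩
    exact ⟨s, t, by rw [← (h s t).1]; exact h1⟩
  · rintro ⟨s, t, h1⟩
    exact ⟨s, t, by rw [(h s t).1]; exact h1⟩

theorem Comp.congr {η η' : Fin a → ZMod 2} {n : ℕ} {S S' : Fin n → Fin a → A} (h : Comp η S S')
    (hη : ∀ i ∈ lvls S, η i = η' i) : Comp η' S S' := by
  intro s t
  obtain ⟨h1, h2⟩ := h s t
  refine ⟨h1, fun i hi => ?_⟩
  rw [h2 i hi, hη i (mem_lvls.2 ⟨s, t, hi.symm⟩)]

end Pool.Agent.Y598.Circ
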