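import Pool.Agent.Y598.Circ.NonIso

/-!
# Digits, and the graphs as circulant graphs
-/

set_option autoImplicit false
set_option linter.unusedSectionVars false

namespace Pool.Agent.Y598.Circ

open Finset Pool.Agent.W185.SRG

section one

variable {q a : ℕ} [NeZero q]

/-- The digits of a residue modulo `q ^ a`. -/
def dig (u : ZMod (q ^ a)) : Fin a → ZMod q := fun i => ((u.val / q ^ (i : ℕ) : ℕ) : ZMod q)

theorem dig_eq_iff {u v : ZMod (q ^ a)} {i : ℕ} (hi : i ≤ a) :
    (∀ l : Fin a, (l : ℕ) < i → dig u l = dig v l) ↔ u.val % q ^ i = v.val % q ^ i := by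
  induction i with
  | zero => simp [Nat.mod_one]
  | succ i ih =>
    have ih' := ih (by omega)
    rw [Nat.mod_pow_succ, Nat.mod_pow_succ]
    constructor
    · intro h
      have h1 := ih'.1 fun l hl => h l (by omega)
      have h2 := h ⟨i, by omega⟩ (Nat.lt_succ_self i)
      unfold dig at h2
      rw [ZMod.natCast_eq_natCast_iff'] at h2
      simp only at h2
      rw [h1, h2]
    · intro h l hl
      have hq : 0 < q ^ i := Nat.pow_pos (Nat.pos_of_ne_zero (NeZero.ne q))
      have h1 : u.val % q ^ i = v.val % q ^ i := by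
        have := congrArg (· % q ^ i) h
        simpa [Nat.add_mul_mod_self_left] using this
      have h2 : u.val / q ^ i % q = v.val / q ^ i % q := by
        rw [h1] at h
        exact Nat.eq_of_mul_eq_mul_left hq (Nat.add_left_cancel h)
      rcases Nat.lt_succ_iff_lt_or_eq.1 hl with h3 | h3
      · exact ih'.2 h1 l h3
      · unfold dig
        rw [ZMod.natCast_eq_natCast_iff', h3]
        exact h2

theorem dig_injective : Function.Injective (dig : ZMod (q ^ a) → Fin a → ZMod q) := by
  intro u v h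
  have h1 := (dig_eq_iff (u := u) (v := v) le_rfl).1 fun l _ => congrFun h l
  rw [Nat.mod_eq_of_lt (ZMod.val_lt u), Nat.mod_eq_of_lt (ZMod.val_lt v)] at h1
  exact ZMod.val_injective _ h1

theorem dig_bijective : Function.Bijective (dig : ZMod (q ^ a) → Fin a → ZMod q) := by
  rw [Fintype.bijective_iff_injective_and_card]
  refine ⟨dig_injective, ?_⟩
  rw [ZMod.card, Fintype.card_fun, ZMod.card, Fintype.card_fin]

theorem dig_zero : dig (0 : ZMod (q ^ a)) = 0 := by
  funext i
  show ((((0 : ZMod (q ^ a)).val / q ^ (i : ℕ) : ℕ)) : ZMod q) = 0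
  rw [ZMod.val_zero, Nat.zero_div, Nat.cast_zero]

theorem dig_sub {u v : ZMod (q ^ a)} {i : Fin a} (h : ∀ l : Fin a, l < i → dig u l = dig v l) :
    (∀ l : Fin a, l < i → dig (u - v) l = 0) ∧ dig (u - v) i = dig u i - dig v i := by
  have hqi : 0 < q ^ (i : ℕ) := Nat.pow_pos (Nat.pos_of_ne_zero (NeZero.ne q))
  have h1 := (dig_eq_iff (u := u) (v := v) i.2.le).1 h
  have h2 : u.val = ((u - v).val + v.val) % q ^ a := by
    rw [← ZMod.val_add, sub_add_cancel]
  have hpa : q ^ a = q ^ (i : ℕ) * q ^ (a - i) := by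
    rw [← pow_add]
    congr 1
    omega
  have h3 : (u - v).val % q ^ (i : ℕ) = 0 := by
    rw [h2, Nat.mod_mod_of_dvd _ (by rw [hpa]; exact Nat.dvd_mul_right _ _)] at h1
    have h4 : ((u - v).val + v.val) ≡ 0 + v.val [MOD q ^ (i : ℕ)] := by
      rw [zero_add]
      exact h1
    have h5 := Nat.ModEq.add_right_cancel' _ h4
    rw [Nat.ModEq, Nat.zero_mod] at h5
    exact h5
  constructor
  · intro l hl
    have h4 := (dig_eq_iff (u := u - v) (v := 0) i.2.le).2 (by
      rw [h3, ZMod.val_zero, Nat.zero_mod])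
    rw [h4 l hl, dig_zero]
    rfl
  · obtain ⟨z, hz⟩ := Nat.dvd_of_mod_eq_zero h3
    have h4 : dig u i = ((z + v.val / q ^ (i : ℕ) : ℕ) : ZMod q) := by
      unfold dig
      rw [ZMod.natCast_eq_natCast_iff']
      generalize u.val = U at h2 ⊢
      rw [hz] at h2
      generalize v.val = V at h2 ⊢
      rw [h2, hpa, Nat.mod_mul_right_div_self,
        Nat.mod_mod_of_dvd _ (dvd_pow_self q (by omega)), Nat.mul_add_div hqi]
    have h5 : dig (u - v) i = (z : ZMod q) := by
      unfold dig
      rw [hz, Nat.mul_div_cancel_left _ hqi]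
    rw [h4, h5, Nat.cast_add]
    unfold dig
    ring

theorem br_dig (u v : ZMod (q ^ a)) : br (dig u) (dig v) = br (dig (u - v)) 0 ∧
    ∀ i : Fin a, (i : ℕ) = br (dig u) (dig v) → dig u i - dig v i = dig (u - v) i - 0 := by
  rcases (br_le (dig u) (dig v)).lt_or_eq with h | h
  · obtain ⟨h1, h2⟩ := dig_sub (u := u) (v := v) (i := ⟨br (dig u) (dig v), h⟩)
      fun l hl => eq_of_lt_br hl
    constructor
    · symm
      refine br_eq (i := ⟨br (dig u) (dig v), h⟩) (fun l hl => h1 l hl) ?_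
      rw [h2]
      exact sub_ne_zero.2 (ne_of_eq_br rfl)
    · intro i hi
      have h3 : i = ⟨br (dig u) (dig v), h⟩ := Fin.ext hi
      rw [h3, h2, sub_zero]
  · have h1 : u = v := dig_injective (br_eq_top.1 h)
    subst h1
    rw [sub_self, dig_zero]
    refine ⟨by rw [br_self, br_self], fun i hi => ?_⟩
    rw [br_self] at hi
    have := i.2
    omega

end one

variable {J : Type} [Fintype J] [DecidableEq J] {p : J → ℕ} {a : ℕ} [∀ j, NeZero (p j)]

/-- The digits of a family of residues. -/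
def digs (u : (j : J) → ZMod (p j ^ a)) : VV p a := fun j => dig (u j)

theorem digs_bijective : Function.Bijective (digs : ((j : J) → ZMod (p j ^ a)) → VV p a) := by
  constructor
  · intro u v h
    funext j
    exact dig_injective (congrFun h j)
  · intro x
    choose u hu using fun j => dig_bijective.2 (x j)
    exact ⟨u, funext hu⟩

theorem pat_digs (u v : (j : J) → ZMod (p j ^ a)) : pat (digs u) (digs v) = pat (digs (u - v)) 0 :=
  funext fun j => (br_dig (u j) (v j)).1

theorem wt_digs (C : Set (J → ℕ)) (b : (J → ℕ) → ZMod 2) (u v : (j : J) → ZMod (p j ^ a)) :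
    wt C b (digs u) (digs v) = wt C b (digs (u - v)) 0 := by
  rw [wt_eq_iff]
  refine ⟨pat_digs u v, ?_⟩
  unfold inf
  rw [← pat_digs u v]
  have h1 : orient (digs u) (digs v) = orient (digs (u - v)) 0 := by
    unfold orient
    rw [← pat_digs u v]
    refine sum_congr rfl fun j _ => ?_
    by_cases h : pat (digs u) (digs v) j < a
    · rw [dif_pos h, dif_pos h]
      exact congrArg chi ((br_dig (u j) (v j)).2 ⟨_, h⟩ rfl)
    · rw [dif_neg h, dif_neg h]
  rw [h1]

/-- The connection set. -/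
def conn (Q : ℕ) (C : Set (J → ℕ)) (b : (J → ℕ) → ZMod 2) :
    Set (((j : J) → ZMod (p j ^ a)) × ZMod Q) :=
  {g | PAdj Q C b (digs g.1, g.2) (0, 0)}

theorem digs_zero : digs (0 : (j : J) → ZMod (p j ^ a)) = 0 := by
  funext j
  exact dig_zero

theorem mem_conn {Q : ℕ} {C : Set (J → ℕ)} {b : (J → ℕ) → ZMod 2}
    (g h : ((j : J) → ZMod (p j ^ a)) × ZMod Q) :
    g - h ∈ conn Q C b ↔ PAdj Q C b (digs g.1, g.2) (digs h.1, h.2) := by
  unfold conn PAdj
  show (digs (g.1 - h.1) = 0 ∧ g.2 - h.2 ≠ 0) ∨ (digs (g.1 - h.1) ≠ 0 ∧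
    g.2 - h.2 - 0 ∈ Iv Q (wt C b (digs (g.1 - h.1)) 0)) ↔ _
  rw [← wt_digs, sub_zero, sub_ne_zero]
  have h1 : digs (g.1 - h.1) = 0 ↔ digs g.1 = digs h.1 := by
    rw [digs_bijective.1.eq_iff, ← digs_zero, digs_bijective.1.eq_iff, sub_eq_zero]
  rw [ne_eq, ne_eq, h1]

variable {Q : ℕ} (hp : ∀ j, Odd (p j)) {C : Set (J → ℕ)} (hC : EvenPat a C)
  (b : (J → ℕ) → ZMod 2)

/-- The circulant graph is isomorphic to the graph on the words. -/
noncomputable def circIso {N : ℕ} (θ : ZMod N ≃+ ((j : J) → ZMod (p j ^ a)) × ZMod Q) :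
    SimpleGraph.circulantGraph (θ ⁻¹' conn Q C b) ≃g PG Q hp hC b where
  toEquiv := θ.toEquiv.trans (Equiv.prodCongr (Equiv.ofBijective _ digs_bijective) (Equiv.refl _))
  map_rel_iff' := by
    intro u v
    show PAdj Q C b (digs (θ u).1, (θ u).2) (digs (θ v).1, (θ v).2) ↔ _
    rw [SimpleGraph.circulantGraph_adj, Set.mem_preimage, Set.mem_preimage, map_sub, map_sub,
      mem_conn, mem_conn]
    constructor
    · intro h
      refine ⟨?_, Or.inl h⟩
      rintro rfl
      exact not_PAdj_self h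
    · rintro ⟨-, h | h⟩
      · exact h
      · exact PAdj_symm hp hC h

end Pool.Agent.Y598.Circ
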