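import Pool.Agent.W185.SRG.Defs

/-!
# The bijective pebble game and the Weisfeiler-Leman method
-/

set_option autoImplicit false
set_option linter.unusedSectionVars false

namespace Pool.Agent.Y598.Circ

open Pool.Agent.W185.SRG

variable {V W : Type} [Fintype V] [Fintype W]

/-- A family of good positions for the bijective game with `k + 1` pebbles. -/
structure Game (k : ℕ) (G : SimpleGraph V) (H : SimpleGraph W) where
  Good : ∀ n : ℕ, (Fin n → V) → (Fin n → W) → Prop
  zero : ∀ S S', Good 0 S S'
  ext : ∀ n, n ≤ k → ∀ S S', Good n S S' → ∃ φ : V ≃ W, ∀ x,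
    Good (n + 1) (Fin.snoc (α := fun _ => V) S x) (Fin.snoc (α := fun _ => W) S' (φ x))
  restr : ∀ n m (σ : Fin m → Fin n) S S', Good n S S' → Good m (S ∘ σ) (S' ∘ σ)
  iso : ∀ S S', Good k S S' → isoType G k S = isoType H k S'

theorem map_univ_eq' {C : Type} (β : V ≃ W) (f : V → C) (g : W → C) (h : ∀ x, f x = g (β x)) :
    (Finset.univ : Finset V).val.map f = (Finset.univ : Finset W).val.map g := by
  have h1 : f = g ∘ β := funext h
  rw [h1, ← Multiset.map_map]
  congr 1
  simp

theorem snoc_comp_update {U : Type} {k : ℕ} (S : Fin k → U) (i : Fin k) (x : U) :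
    Function.update S i x = (Fin.snoc (α := fun _ => U) S x : Fin (k + 1) → U) ∘
      (fun j => if j = i then Fin.last k else Fin.castSucc j) := by
  funext j
  by_cases h : j = i
  · subst h
    simp
  · simp [h]

namespace Game

variable {k : ℕ} {G : SimpleGraph V} {H : SimpleGraph W} (A : Game k G H)

theorem wl_eq (t : ℕ) : ∀ (S : Fin k → V) (S' : Fin k → W), A.Good k S S' →
    wl G k t S = wl H k t S' := by
  induction t with
  | zero =>
    intro S S' h
    exact A.iso S S' h
  | succ t ih =>
    intro S S' h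
    refine Prod.ext (ih S S' h) ?_
    obtain ⟨φ, hφ⟩ := A.ext k le_rfl S S' h
    refine map_univ_eq' φ _ _ fun x => ?_
    funext i
    refine ih _ _ ?_
    have h1 := A.restr _ _ (fun j => if j = i then Fin.last k else Fin.castSucc j) _ _ (hφ x)
    rw [← snoc_comp_update, ← snoc_comp_update] at h1
    exact h1

theorem exists_psi (n : ℕ) (hn : n ≤ k) : ∃ ψ : (Fin n → V) ≃ (Fin n → W),
    ∀ S, A.Good n S (ψ S) := by
  induction n with
  | zero =>
    exact ⟨⟨fun _ => Fin.elim0, fun _ => Fin.elim0, fun S => Subsingleton.elim _ _,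
      fun S => Subsingleton.elim _ _⟩, fun S => A.zero _ _⟩
  | succ n ih =>
    obtain ⟨ψ, hψ⟩ := ih (by omega)
    choose φ hφ using fun S => A.ext n (by omega) S (ψ S) (hψ S)
    refine ⟨⟨fun T => Fin.snoc (α := fun _ => W) (ψ (Fin.init T)) (φ (Fin.init T) (T (Fin.last n))),
      fun T => Fin.snoc (α := fun _ => V) (ψ.symm (Fin.init T))
        ((φ (ψ.symm (Fin.init T))).symm (T (Fin.last n))), ?_, ?_⟩, ?_⟩
    · intro T
      simp only [Fin.init_snoc, Fin.snoc_last, Equiv.symm_apply_apply]
      exact Fin.snoc_init_self (α := fun _ => V) T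
    · intro T
      simp only [Fin.init_snoc, Fin.snoc_last, Equiv.apply_symm_apply]
      exact Fin.snoc_init_self (α := fun _ => W) T
    · intro T
      have h1 := hφ (Fin.init T) (T (Fin.last n))
      have h2 : Fin.snoc (α := fun _ => V) (Fin.init T) (T (Fin.last n)) = T :=
        Fin.snoc_init_self (α := fun _ => V) T
      have h3 : A.Good (n + 1) T (Fin.snoc (α := fun _ => W) (ψ (Fin.init T))
          (φ (Fin.init T) (T (Fin.last n)))) := by
        conv => arg 3; rw [← h2]
        exact h1
      exact h3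

theorem wlEquivalent (A : Game k G H) : WLEquivalent k G H := by
  obtain ⟨ψ, hψ⟩ := A.exists_psi k le_rfl
  exact ⟨ψ, fun t S => A.wl_eq t _ _ (hψ S)⟩

end Game

end Pool.Agent.Y598.Circ
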