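import Pool.Agent.Y598.Circ.Digits
import Pool.Agent.TH658.Dg.Marg

/-!
# Circulant graphs and the Weisfeiler-Leman method
-/

set_option autoImplicit false
set_option linter.unusedSectionVars false

namespace Pool.Agent.Y598.Circ

open Finset Pool.Agent.W185.SRG Pool.Agent.TH658.Sos Pool.Agent.TH658.Dg

/-- Transport of a game along isomorphisms. -/
noncomputable def Game.transport {V W V' W' : Type} [Fintype V] [Fintype W] [Fintype V']
    [Fintype W'] {k : ℕ} {G : SimpleGraph V} {H : SimpleGraph W} {G' : SimpleGraph V'}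
    {H' : SimpleGraph W'} (A : Game k G H) (e : G' ≃g G) (f : H' ≃g H) : Game k G' H' where
  Good n S S' := A.Good n (fun s => e (S s)) (fun s => f (S' s))
  zero S S' := A.zero _ _
  ext n hn S S' h := by
    obtain ⟨φ, hφ⟩ := A.ext n hn _ _ h
    refine ⟨(e.toEquiv.trans φ).trans f.toEquiv.symm, fun x => ?_⟩
    have h1 := hφ (e x)
    have e1 : (fun s => e ((Fin.snoc (α := fun _ => V') S x : Fin (n + 1) → V') s)) =
        (Fin.snoc (α := fun _ => V) (fun s => e (S s)) (e x) : Fin (n + 1) → V) := by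
      funext s
      induction s using Fin.lastCases with
      | last => simp
      | cast s => simp
    have e2 : (fun s => f ((Fin.snoc (α := fun _ => W') S'
          (((e.toEquiv.trans φ).trans f.toEquiv.symm) x) : Fin (n + 1) → W') s)) =
        (Fin.snoc (α := fun _ => W) (fun s => f (S' s)) (φ (e x)) : Fin (n + 1) → W) := by
      funext s
      induction s using Fin.lastCases with
      | last =>
        simp only [Fin.snoc_last]
        show f.toEquiv (f.toEquiv.symm (φ (e x))) = φ (e x)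
        exact f.toEquiv.apply_symm_apply _
      | cast s => simp
    rw [e1, e2]
    exact h1
  restr n m σ S S' h := A.restr n m σ _ _ h
  iso S S' h := by
    have h1 := A.iso _ _ h
    have h3 : (isoType G k fun s => e (S s)).1 = (isoType H k fun s => f (S' s)).1 := by rw [h1]
    have h4 : (isoType G k fun s => e (S s)).2 = (isoType H k fun s => f (S' s)).2 := by rw [h1]
    refine Prod.ext ?_ ?_
    · funext i j
      have h2 : (e (S i) = e (S j)) = (f (S' i) = f (S' j)) := congrFun (congrFun h3 i) j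
      rw [e.injective.eq_iff, f.injective.eq_iff] at h2
      exact h2
    · funext i j
      have h2 : G.Adj (e (S i)) (e (S j)) = H.Adj (f (S' i)) (f (S' j)) :=
        congrFun (congrFun h4 i) j
      rw [e.map_adj_iff, f.map_adj_iff] at h2
      exact h2

/-- The indices of the eight chains. -/
abbrev JJ : Type := Fin 4 ⊕ Fin 4

/-- The eight primes. -/
def pr : JJ → ℕ
  | Sum.inl k => ![3, 5, 7, 11] k
  | Sum.inr k => ![13, 17, 19, 23] k

instance (j : JJ) : NeZero (pr j) := ⟨by revert j; decide⟩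

theorem pr_odd : ∀ j : JJ, Odd (pr j) := by decide

theorem pr_three : ∀ j : JJ, 3 ≤ pr j := by decide

theorem pr_coprime : ∀ i j : JJ, i ≠ j → Nat.Coprime (pr i) (pr j) := by decide

theorem pr_two : ∀ j : JJ, Nat.Coprime (pr j) 2 := by decide

theorem prod_pr : ∏ j, pr j = 111546435 := by decide

section

variable (m : ℕ) [NeZero m]

/-- An enumeration of the nodes. -/
noncomputable def en : Fin (m * m) ≃ MQ m :=
  (Fintype.equivFinOfCardEq (by rw [Fintype.card_prod, ZMod.card])).symm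

/-- The edge of a level of a chain. -/
noncomputable def ed : JJ → Fin (m * m) → ME m
  | Sum.inl k, i => (k, en m i)
  | Sum.inr k, i => (k, en m i)

/-- The pattern of a node. -/
noncomputable def nodeP (v : MQ m) (j : JJ) : ℕ := ((en m).symm (mport m v j).2).val

theorem nodeP_lt (v : MQ m) (j : JJ) : nodeP m v j < m * m := Fin.isLt _

theorem ed_nodeP (v : MQ m) (j : JJ) (h : nodeP m v j < m * m) :
    ed m j ⟨nodeP m v j, h⟩ = mport m v j := by
  have h1 : (⟨nodeP m v j, h⟩ : Fin (m * m)) = (en m).symm (mport m v j).2 := Fin.ext rfl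
  rw [h1]
  rcases j with k | k
  · show (k, en m ((en m).symm _)) = _
    rw [Equiv.apply_symm_apply]
    rfl
  · show (k, en m ((en m).symm _)) = _
    rw [Equiv.apply_symm_apply]
    rfl

/-- The pattern of an equality between two chains. -/
noncomputable def eqP (k : Fin 4) (i : Fin (m * m)) (j : JJ) : ℕ :=
  if j = Sum.inl k ∨ j = Sum.inr k then i else m * m

/-- The patterns. -/
def CC : Set (JJ → ℕ) := {β | (∃ v, β = nodeP m v) ∨ ∃ k i, β = eqP m k i}

/-- The twist. -/
noncomputable def tw (β : JJ → ℕ) : ZMod 2 :=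
  open Classical in if β = nodeP m 0 then 1 else 0

theorem nodeP_inj {v w : MQ m} (h : nodeP m v = nodeP m w) : v = w := by
  have h1 := congrFun h (Sum.inr 0)
  have h2 : (mport m v (Sum.inr 0)).2 = (mport m w (Sum.inr 0)).2 :=
    (en m).symm.injective (Fin.ext h1)
  exact h2

theorem nodeP_ne_eqP (v : MQ m) (k : Fin 4) (i : Fin (m * m)) : nodeP m v ≠ eqP m k i := by
  intro h
  have h1 := congrFun h (Sum.inl (k + 1))
  have h2 : ∀ k : Fin 4, k + 1 ≠ k := by decide
  have h3 : eqP m k i (Sum.inl (k + 1)) = m * m := by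
    unfold eqP
    rw [if_neg]
    rintro (h4 | h4)
    · exact h2 k (Sum.inl.inj h4)
    · exact absurd h4 (by simp)
  rw [h3] at h1
  have := nodeP_lt m v (Sum.inl (k + 1))
  omega

theorem evenPat : EvenPat (m * m) (CC m) := by
  rintro β (⟨v, rfl⟩ | ⟨k, i, rfl⟩)
  · have h1 : (univ.filter fun j => nodeP m v j < m * m) = univ :=
      filter_true_of_mem fun j _ => nodeP_lt m v j
    rw [h1]
    decide
  · have h1 : (univ.filter fun j => eqP m k i j < m * m) = {Sum.inl k, Sum.inr k} := by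
      ext j
      rw [mem_filter, mem_insert, mem_singleton]
      unfold eqP
      constructor
      · rintro ⟨-, h⟩
        by_contra h2
        rw [if_neg h2] at h
        exact lt_irrefl _ h
      · intro h
        rw [if_pos h]
        exact ⟨mem_univ _, i.2⟩
    rw [h1, card_pair (by simp)]
    exact ⟨1, rfl⟩

theorem psum_node (x : ME m → ZMod 2) (v : MQ m) :
    psum (fun j i => x (ed m j i)) (nodeP m v) = bd (msrc m) (mtgt m) x v := by
  rw [← mport_bd]
  unfold psum
  refine sum_congr rfl fun j _ => ?_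
  rw [dif_pos (nodeP_lt m v j)]
  beta_reduce
  rw [ed_nodeP]
  have h1 : ∀ (j : JJ) (z : ZMod 2), z = msgn j • z := by decide
  exact h1 _ _

theorem psum_eq (y : JJ → Fin (m * m) → ZMod 2) (k : Fin 4) (i : Fin (m * m)) :
    psum y (eqP m k i) = y (Sum.inl k) i + y (Sum.inr k) i := by
  unfold psum
  rw [sum_eq_add (Sum.inl k) (Sum.inr k) (by simp)]
  · have h1 : eqP m k i (Sum.inl k) = i := if_pos (Or.inl rfl)
    have h2 : eqP m k i (Sum.inr k) = i := if_pos (Or.inr rfl)
    rw [dif_pos (by rw [h1]; exact i.2), dif_pos (by rw [h2]; exact i.2)]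
    congr 2
    · exact Fin.ext h1
    · exact Fin.ext h2
  · rintro j - ⟨h1, h2⟩
    rw [dif_neg]
    unfold eqP
    rw [if_neg (by rintro (h | h); exacts [h1 h, h2 h])]
    exact lt_irrefl _
  · intro h
    exact absurd (mem_univ _) h
  · intro h
    exact absurd (mem_univ _) h

/-- The right-hand sides. -/
def rhs : MQ m → ZMod 2 := Pi.single 0 1

theorem tw_node (v : MQ m) : tw m (nodeP m v) = rhs m v := by
  unfold tw rhs
  by_cases h : v = 0
  · subst h
    rw [if_pos rfl, Pi.single_eq_same]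
  · rw [if_neg fun h' => h (nodeP_inj m h'), Pi.single_eq_of_ne h]

theorem tw_eq (k : Fin 4) (i : Fin (m * m)) : tw m (eqP m k i) = 0 := by
  unfold tw
  rw [if_neg fun h' => nodeP_ne_eqP m 0 k i h'.symm]

/-- The game. -/
theorem wl_main (k : ℕ) (h : 6400 * (8 * (k + 1)) ≤ m ^ 2) (Q : ℕ) [NeZero Q] :
    Nonempty (Game k (PG (p := pr) Q pr_odd (evenPat m) (fun _ => 0))
      (PG (p := pr) Q pr_odd (evenPat m) (tw m))) := by
  classical
  have hE := marg_expd (ZMod 2) m (8 * (k + 1)) h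
  refine ⟨gameP (ed := ed m) (flowSys hE (rhs m)) Q k pr_odd (evenPat m) (fun _ => 0) (tw m)
    ?_ ?_ ?_ ?_⟩
  · intro W x hx e he
    exact hx e he
  · intro W
    rfl
  · exact le_rfl
  · rintro W x hx β (⟨v, rfl⟩ | ⟨k', i, rfl⟩) hW
    · rw [psum_node, tw_node, sub_zero]
      refine flowSys_node hE (by omega) (rhs m) hx v fun e he => ?_
      obtain ⟨j, rfl⟩ := (mport_inc m v e).1 he
      rw [← ed_nodeP m v j (nodeP_lt m v j)]
      exact hW j _
    · rw [psum_eq, tw_eq, sub_zero]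
      exact CharTwo.add_self_eq_zero _

theorem not_iso (Q : ℕ) [NeZero Q]
    (hQ : Fintype.card (VV pr (m * m)) * (2 * (numCol JJ (m * m) + 1)) + 2 < Q) :
    IsEmpty (PG (p := pr) Q pr_odd (evenPat m) (fun _ => 0) ≃g
      PG (p := pr) Q pr_odd (evenPat m) (tw m)) := by
  refine ⟨fun F => ?_⟩
  obtain ⟨y, hy⟩ := solution_of_iso pr_odd (evenPat m) (fun _ => 0) (tw m) pr_three hQ F
  have hm : 0 < m * m := Nat.mul_pos (Nat.pos_of_ne_zero (NeZero.ne m))
    (Nat.pos_of_ne_zero (NeZero.ne m))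
  have h1 : ∀ k i, y (Sum.inl k) i = y (Sum.inr k) i := by
    intro k i
    have h2 := hy (eqP m k i) (Or.inr ⟨k, i, rfl⟩) (fun j => by
        unfold eqP
        split_ifs
        · exact i.2.le
        · exact le_rfl) ⟨Sum.inl k, by
          have h1 : eqP m k i (Sum.inl k) = i := if_pos (Or.inl rfl)
          rw [h1]
          exact i.2⟩
    rw [psum_eq, tw_eq, sub_zero] at h2
    exact CharTwo.add_eq_zero.1 h2
  let x : ME m → ZMod 2 := fun e => y (Sum.inr e.1) ((en m).symm e.2)
  have hx : ∀ j i, y j i = x (ed m j i) := by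
    intro j i
    rcases j with k | k
    · rw [h1]
      show _ = y (Sum.inr k) ((en m).symm (en m i))
      rw [Equiv.symm_apply_apply]
    · show _ = y (Sum.inr k) ((en m).symm (en m i))
      rw [Equiv.symm_apply_apply]
  have h2 : ∀ v, bd (msrc m) (mtgt m) x v = rhs m v := by
    intro v
    have h3 := hy (nodeP m v) (Or.inl ⟨v, rfl⟩) (fun j => (nodeP_lt m v j).le)
      ⟨Sum.inl 0, nodeP_lt m v _⟩
    rw [tw_node, sub_zero] at h3
    rw [← h3, ← psum_node]
    congr 1
    funext j i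
    exact (hx j i).symm
  have h3 := sum_bd (msrc m) (mtgt m) x
  rw [sum_congr rfl fun v _ => h2 v] at h3
  have h4 : ∑ v, rhs m v = 1 := by
    unfold rhs
    rw [sum_pi_single']
    simp
  rw [h4] at h3
  exact one_ne_zero h3

end

/-- The order of the cyclic group. -/
def NN (a Q : ℕ) : ℕ := (∏ j, pr j ^ a) * Q

/-- The cyclic group as a product. -/
noncomputable def theta (a e : ℕ) :
    ZMod (NN a (2 ^ e)) ≃+ ((j : JJ) → ZMod (pr j ^ a)) × ZMod (2 ^ e) :=
  ((ZMod.chineseRemainder (m := ∏ j, pr j ^ a) (n := 2 ^ e)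
    (Nat.Coprime.prod_left fun j _ => ((pr_two j).pow_left a).pow_right e)).toAddEquiv).trans
    (AddEquiv.prodCongr (ZMod.prodEquivPi (fun j => pr j ^ a)
      fun i j hij => Nat.Coprime.pow a a (pr_coprime i j hij)).toAddEquiv (AddEquiv.refl _))

theorem NN_eq (a Q : ℕ) : NN a Q = 111546435 ^ a * Q := by
  unfold NN
  rw [prod_pow, prod_pr]

theorem card_VV (a : ℕ) : Fintype.card (VV pr a) = 111546435 ^ a := by
  rw [Fintype.card_pi]
  have h1 : ∀ j, Fintype.card (Fin a → ZMod (pr j)) = pr j ^ a := by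
    intro j
    rw [Fintype.card_fun, ZMod.card, Fintype.card_fin]
  rw [prod_congr rfl fun j _ => h1 j, prod_pow, prod_pr]

/-- The main theorem. -/
theorem main : ∃ C : ℕ, ∀ k : ℕ, 1 ≤ k → ∃ (n : ℕ) (_ : NeZero n) (S T : Set (ZMod n)),
    n ≤ 2 ^ (C * k) ∧
    IsEmpty (SimpleGraph.circulantGraph S ≃g SimpleGraph.circulantGraph T) ∧
    WLEquivalent k (SimpleGraph.circulantGraph S) (SimpleGraph.circulantGraph T) := by
  refine ⟨66 * 409600 * 4, fun k hk => ?_⟩
  -- the side of the grid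
  obtain ⟨m, hm0, hm1, hm2⟩ : ∃ m : ℕ, 0 < m ∧ 6400 * (8 * (k + 1)) ≤ m ^ 2 ∧
      m ^ 2 ≤ 4 * 409600 * k := by
    have h0 := Nat.lt_succ_sqrt (51200 * (k + 1))
    have h1 := Nat.sqrt_le (51200 * (k + 1))
    have h2 : 1 ≤ Nat.sqrt (51200 * (k + 1)) := by
      rw [Nat.le_sqrt]
      omega
    refine ⟨Nat.sqrt (51200 * (k + 1)) + 1, by omega, ?_, ?_⟩
    · rw [pow_two]
      have h3 : 6400 * (8 * (k + 1)) = 51200 * (k + 1) := by ring
      rw [h3]
      exact h0.le
    · have h4 : (Nat.sqrt (51200 * (k + 1)) + 1) ^ 2 ≤ 4 * (Nat.sqrt (51200 * (k + 1)) *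
          Nat.sqrt (51200 * (k + 1))) := by nlinarith
      omega
  have : NeZero m := ⟨by omega⟩
  set a : ℕ := m * m with ha
  have ha1 : 1 ≤ a := Nat.mul_pos hm0 hm0
  set e : ℕ := 35 * a + 4 with he
  have : NeZero (2 ^ e) := ⟨by positivity⟩
  have hn0 : 0 < NN a (2 ^ e) := by
    rw [NN_eq]
    positivity
  have : NeZero (NN a (2 ^ e)) := ⟨hn0.ne'⟩
  -- the bound for the number of colours
  have hcol : 2 * (numCol JJ a + 1) + 2 ≤ 2 ^ (8 * a + 3) := by
    rw [numCol_eq]
    have h1 : Fintype.card JJ = 8 := rfl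
    rw [h1]
    have h2 : a + 1 ≤ 2 ^ a := Nat.lt_two_pow_self
    have h3 : (a + 1) ^ 8 ≤ 2 ^ (8 * a) := by
      calc (a + 1) ^ 8 ≤ (2 ^ a) ^ 8 := Nat.pow_le_pow_left h2 8
        _ = 2 ^ (8 * a) := by rw [← pow_mul, mul_comm]
    have h4 : 1 ≤ 2 ^ (8 * a) := Nat.one_le_two_pow
    rw [pow_add]
    omega
  have hbase : 111546435 ^ a ≤ 2 ^ (27 * a) := by
    calc 111546435 ^ a ≤ (2 ^ 27) ^ a := Nat.pow_le_pow_left (by norm_num) a
      _ = 2 ^ (27 * a) := (pow_mul 2 27 a).symm
  have hQ : Fintype.card (VV pr a) * (2 * (numCol JJ a + 1)) + 2 < 2 ^ e := by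
    rw [card_VV]
    have h1 : 1 ≤ 111546435 ^ a := Nat.one_le_pow _ _ (by norm_num)
    have h2 : 111546435 ^ a * (2 * (numCol JJ a + 1)) + 2 ≤
        111546435 ^ a * (2 * (numCol JJ a + 1) + 2) := by nlinarith
    have h3 : 111546435 ^ a * (2 * (numCol JJ a + 1) + 2) ≤ 2 ^ (27 * a) * 2 ^ (8 * a + 3) :=
      Nat.mul_le_mul hbase hcol
    have h4 : 2 ^ (27 * a) * 2 ^ (8 * a + 3) * 2 = 2 ^ e := by
      rw [he, ← pow_add, ← pow_succ]
      congr 1
      ring
    have h5 : 0 < 2 ^ (27 * a) * 2 ^ (8 * a + 3) := by positivity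
    omega
  refine ⟨NN a (2 ^ e), inferInstance, theta a e ⁻¹' conn (2 ^ e) (CC m) (fun _ => 0),
    theta a e ⁻¹' conn (2 ^ e) (CC m) (tw m), ?_, ?_, ?_⟩
  · rw [NN_eq]
    calc 111546435 ^ a * 2 ^ e ≤ 2 ^ (27 * a) * 2 ^ e := Nat.mul_le_mul_right _ hbase
      _ = 2 ^ (27 * a + e) := by rw [← pow_add]
      _ ≤ 2 ^ (66 * 409600 * 4 * k) := by
        apply Nat.pow_le_pow_right (by norm_num)
        have h1 : a = m ^ 2 := by rw [ha, pow_two]
        omega
  · refine ⟨fun F => ?_⟩
    exact (not_iso m (2 ^ e) hQ).false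
      (((circIso pr_odd (evenPat m) (fun _ => 0) (theta a e)).symm.trans F).trans
        (circIso pr_odd (evenPat m) (tw m) (theta a e)))
  · obtain ⟨A⟩ := wl_main m k hm1 (2 ^ e)
    exact (A.transport (circIso pr_odd (evenPat m) (fun _ => 0) (theta a e))
      (circIso pr_odd (evenPat m) (tw m) (theta a e))).wlEquivalent

end Pool.Agent.Y598.Circ
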