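import Pool.Agent.Y598.Circ.Plain

/-!
# Isomorphisms of the graphs give solutions of the linear system
-/

set_option autoImplicit false
set_option linter.unusedSectionVars false

namespace Pool.Agent.Y598.Circ

open Finset

/-- The number of common neighbours. -/
noncomputable def cn {U : Type} (G : SimpleGraph U) (u v : U) : ℕ :=
  Nat.card {z // G.Adj u z ∧ G.Adj v z}

theorem cn_iso {U U' : Type} {G : SimpleGraph U} {H : SimpleGraph U'} (F : G ≃g H) (u v : U) :
    cn G u v = cn H (F u) (F v) := by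
  unfold cn
  refine Nat.card_congr (F.toEquiv.subtypeEquiv fun z => ?_)
  show _ ↔ H.Adj (F u) (F z) ∧ H.Adj (F v) (F z)
  rw [F.map_adj_iff, F.map_adj_iff]

variable {J : Type} [Fintype J] [DecidableEq J] {p : J → ℕ} {a : ℕ} {Q : ℕ} [NeZero Q]
  [∀ j, NeZero (p j)] (hp : ∀ j, Odd (p j)) {C : Set (J → ℕ)} (hC : EvenPat a C)
  (b b' : (J → ℕ) → ZMod 2)

/-- The number of neighbours of `u` in the fibre of `y`. -/
noncomputable def dg (G : SimpleGraph (VV p a × ZMod Q)) (u : VV p a × ZMod Q) (y : VV p a) : ℕ :=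
  Nat.card {z : VV p a × ZMod Q // z.1 = y ∧ G.Adj u z}

theorem dg_eq (u : VV p a × ZMod Q) (y : VV p a) (h : u.1 ≠ y) :
    dg (PG Q hp hC b) u y = (Iv Q (wt C b u.1 y)).card := by
  unfold dg
  rw [← Fintype.card_coe, ← Nat.card_eq_fintype_card]
  refine Nat.card_congr ⟨fun z => ⟨u.2 - z.1.2, ?_⟩, fun c => ⟨(y, u.2 - c.1), rfl, ?_⟩, ?_, ?_⟩
  · obtain ⟨z, h1, h2⟩ := z
    have h3 : PAdj Q C b u z := h2
    rcases h3 with ⟨h4, _⟩ | ⟨_, h4⟩
    · exact absurd (h4.trans h1) h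
    · rw [h1] at h4
      exact h4
  · refine Or.inr ⟨h, ?_⟩
    show u.2 - (u.2 - c.1) ∈ _
    rw [sub_sub_cancel]
    exact c.2
  · rintro ⟨⟨z1, z2⟩, h1, h2⟩
    simp only at h1
    subst h1
    simp only [sub_sub_cancel]
  · rintro ⟨c, hc⟩
    simp only [sub_sub_cancel]

theorem dg_le (u : VV p a × ZMod Q) (y : VV p a) (h : u.1 ≠ y) :
    dg (PG Q hp hC b) u y ≤ 2 * (numCol J a + 1) := by
  rw [dg_eq hp hC b u y h]
  refine (card_Iv_le _ _).trans ?_
  have := wt_lt C b u.1 y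
  omega

theorem cn_same {u v : VV p a × ZMod Q} (h : u.1 = v.1) (huv : u ≠ v) :
    Q - 2 ≤ cn (PG Q hp hC b) u v := by
  classical
  have h2 : u.2 ≠ v.2 := fun h' => huv (Prod.ext h h')
  have h1 : ((univ.erase u.2).erase v.2 : Finset (ZMod Q)).card = Q - 2 := by
    rw [card_erase_of_mem (mem_erase.2 ⟨h2.symm, mem_univ _⟩), card_erase_of_mem (mem_univ _),
      card_univ, ZMod.card]
    omega
  rw [← h1]
  unfold cn
  rw [Nat.card_eq_fintype_card, ← Fintype.card_coe]
  refine Fintype.card_le_of_injective (fun c => ⟨(u.1, c.1), ?_, ?_⟩) ?_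
  · have hc := mem_erase.1 (mem_erase.1 c.2).2
    exact Or.inl ⟨rfl, hc.1.symm⟩
  · have hc := mem_erase.1 c.2
    exact Or.inl ⟨h.symm, hc.1.symm⟩
  · intro c c' hcc
    simp only [Subtype.mk.injEq, Prod.mk.injEq, true_and] at hcc
    exact Subtype.ext hcc

theorem cn_diff {u v : VV p a × ZMod Q} (h : u.1 ≠ v.1) :
    cn (PG Q hp hC b) u v ≤ Fintype.card (VV p a) * (2 * (numCol J a + 1)) := by
  classical
  unfold cn
  have h1 : Nat.card {z // (PG Q hp hC b).Adj u z ∧ (PG Q hp hC b).Adj v z} ≤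
      Nat.card (Σ y : VV p a, {z : VV p a × ZMod Q // z.1 = y ∧
        (PG Q hp hC b).Adj (if u.1 = y then v else u) z}) := by
    refine Nat.card_le_card_of_injective (fun z => ⟨z.1.1, z.1, rfl, ?_⟩) ?_
    · by_cases h2 : u.1 = z.1.1
      · rw [if_pos h2]
        exact z.2.2
      · rw [if_neg h2]
        exact z.2.1
    · intro z z' hz
      have h2 := congrArg (fun s : (Σ y : VV p a, {z : VV p a × ZMod Q // z.1 = y ∧
        (PG Q hp hC b).Adj (if u.1 = y then v else u) z}) => s.2.1) hz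
      exact Subtype.ext h2
  refine h1.trans ?_
  rw [Nat.card_sigma]
  have h2 : ∀ y ∈ (univ : Finset (VV p a)), Nat.card {z : VV p a × ZMod Q // z.1 = y ∧
      (PG Q hp hC b).Adj (if u.1 = y then v else u) z} ≤ 2 * (numCol J a + 1) := by
    intro y _
    by_cases h3 : u.1 = y
    · rw [if_pos h3]
      exact dg_le hp hC b v y (fun h4 => h (h3.trans h4.symm))
    · rw [if_neg h3]
      exact dg_le hp hC b u y h3
  refine (sum_le_sum h2).trans ?_
  rw [sum_const, smul_eq_mul, card_univ]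

theorem fibre_iff (hQ : Fintype.card (VV p a) * (2 * (numCol J a + 1)) + 2 < Q)
    (F : PG Q hp hC b ≃g PG Q hp hC b') (u v : VV p a × ZMod Q) :
    u.1 = v.1 ↔ (F u).1 = (F v).1 := by
  by_cases huv : u = v
  · subst huv
    simp
  have huv' : F u ≠ F v := fun h => huv (F.injective h)
  constructor
  · intro h
    by_contra h1
    have h2 := cn_same hp hC b h huv
    have h3 := cn_diff hp hC b' h1
    rw [cn_iso F] at h2
    omega
  · intro h
    by_contra h1
    have h2 := cn_same hp hC b' h huv'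
    have h3 := cn_diff hp hC b h1
    rw [← cn_iso F] at h2
    omega

theorem solution_of_iso (hp3 : ∀ j, 3 ≤ p j)
    (hQ : Fintype.card (VV p a) * (2 * (numCol J a + 1)) + 2 < Q)
    (F : PG Q hp hC b ≃g PG Q hp hC b') :
    ∃ m : J → Fin a → ZMod 2, ∀ β ∈ C, (∀ j, β j ≤ a) → (∃ j, β j < a) →
      psum m β = b' β - b β := by
  refine solution_of_bij hp3 (fun x => (F (x, 0)).1) fun x y hxy => ?_
  have h1 : dg (PG Q hp hC b) (x, 0) y = dg (PG Q hp hC b') (F (x, 0)) (F (y, 0)).1 := by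
    unfold dg
    refine Nat.card_congr (F.toEquiv.subtypeEquiv fun z => ?_)
    show z.1 = y ∧ (PG Q hp hC b).Adj (x, 0) z ↔ (F z).1 = (F (y, 0)).1 ∧
      (PG Q hp hC b').Adj (F (x, 0)) (F z)
    rw [F.map_adj_iff, ← fibre_iff hp hC b b' hQ F z (y, 0)]
  have h2 : (F (x, 0)).1 ≠ (F (y, 0)).1 := fun h =>
    hxy ((fibre_iff hp hC b b' hQ F (x, 0) (y, 0)).2 h)
  rw [dg_eq hp hC b (x, 0) y hxy, dg_eq hp hC b' (F (x, 0)) _ h2] at h1
  have hcV : 1 ≤ Fintype.card (VV p a) := Fintype.card_pos_iff.2 ⟨0⟩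
  have h5 : 2 * (numCol J a + 1) ≤ Fintype.card (VV p a) * (2 * (numCol J a + 1)) :=
    Nat.le_mul_of_pos_left _ hcV
  refine card_Iv_inj ?_ ?_ h1
  · have := wt_lt C b x y
    show 2 * wt C b x y < Q
    omega
  · have := wt_lt C b' (F (x, 0)).1 (F (y, 0)).1
    omega

end Pool.Agent.Y598.Circ
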