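import Pool.Agent.Y598.Circ.Struct

/-!
# The graphs, and the game on them
-/

set_option autoImplicit false
set_option linter.unusedSectionVars false

namespace Pool.Agent.Y598.Circ

open Finset Pool.Agent.TH658.Sos Pool.Agent.W185.SRG

/-- The symmetric interval `{-w, …, w}`. -/
def Iv (Q w : ℕ) : Finset (ZMod Q) :=
  (range (w + 1)).image (fun i : ℕ => (i : ZMod Q)) ∪
    (range (w + 1)).image (fun i : ℕ => -(i : ZMod Q))

theorem Iv_neg {Q w : ℕ} {z : ZMod Q} (h : z ∈ Iv Q w) : -z ∈ Iv Q w := by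
  unfold Iv at h ⊢
  rw [mem_union, mem_image, mem_image] at h ⊢
  rcases h with ⟨i, hi, rfl⟩ | ⟨i, hi, rfl⟩
  · exact Or.inr ⟨i, hi, rfl⟩
  · exact Or.inl ⟨i, hi, (neg_neg _).symm⟩

theorem card_Iv_le (Q w : ℕ) : (Iv Q w).card ≤ 2 * (w + 1) := by
  unfold Iv
  refine (card_union_le _ _).trans ?_
  have h1 := card_image_le (s := range (w + 1)) (f := fun i : ℕ => (i : ZMod Q))
  have h2 := card_image_le (s := range (w + 1)) (f := fun i : ℕ => -(i : ZMod Q))
  rw [card_range] at h1 h2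
  omega

theorem Iv_mono {Q w w' : ℕ} (h : w ≤ w') : Iv Q w ⊆ Iv Q w' := by
  unfold Iv
  have h1 : range (w + 1) ⊆ range (w' + 1) := range_subset_range.2 (by omega)
  exact union_subset_union (image_subset_image h1) (image_subset_image h1)

theorem Iv_new {Q w : ℕ} (h : 2 * (w + 1) < Q) : ((w + 1 : ℕ) : ZMod Q) ∉ Iv Q w := by
  unfold Iv
  rw [mem_union, mem_image, mem_image]
  rintro (⟨i, hi, h1⟩ | ⟨i, hi, h1⟩)
  · rw [mem_range] at hi
    rw [ZMod.natCast_eq_natCast_iff'] at h1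
    rw [Nat.mod_eq_of_lt (by omega), Nat.mod_eq_of_lt (by omega)] at h1
    omega
  · rw [mem_range] at hi
    have h2 : ((w + 1 + i : ℕ) : ZMod Q) = 0 := by
      rw [Nat.cast_add, ← h1, neg_add_cancel]
    rw [ZMod.natCast_eq_zero_iff] at h2
    have := Nat.le_of_dvd (by omega) h2
    omega

theorem card_Iv_lt {Q w w' : ℕ} (h : w < w') (hQ : 2 * w' < Q) :
    (Iv Q w).card < (Iv Q w').card := by
  refine card_lt_card ⟨Iv_mono h.le, fun h1 => ?_⟩
  refine Iv_new (Q := Q) (w := w) (by omega) (h1 (Iv_mono (w := w + 1) h ?_))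
  unfold Iv
  rw [mem_union, mem_image]
  exact Or.inl ⟨w + 1, mem_range.2 (by omega), rfl⟩

theorem card_Iv_inj {Q w w' : ℕ} (h : 2 * w < Q) (h' : 2 * w' < Q)
    (he : (Iv Q w).card = (Iv Q w').card) : w = w' := by
  rcases lt_trichotomy w w' with h1 | h1 | h1
  · exact absurd he (card_Iv_lt h1 h').ne
  · exact h1
  · exact absurd he (card_Iv_lt h1 h).ne'

variable {J : Type} [Fintype J] [DecidableEq J] {p : J → ℕ} {a : ℕ}

/-- The adjacency relation. -/
def PAdj (Q : ℕ) (C : Set (J → ℕ)) (b : (J → ℕ) → ZMod 2) (u v : VV p a × ZMod Q) : Prop :=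
  (u.1 = v.1 ∧ u.2 ≠ v.2) ∨ (u.1 ≠ v.1 ∧ u.2 - v.2 ∈ Iv Q (wt C b u.1 v.1))

/-- The patterns in `C` have an even number of levels. -/
def EvenPat (a : ℕ) (C : Set (J → ℕ)) : Prop := ∀ β ∈ C, Even (univ.filter fun j => β j < a).card

theorem PAdj_symm {Q : ℕ} [∀ j, NeZero (p j)] (hp : ∀ j, Odd (p j)) {C : Set (J → ℕ)}
    (hC : EvenPat a C) {b : (J → ℕ) → ZMod 2} {u v : VV p a × ZMod Q} (h : PAdj Q C b u v) :
    PAdj Q C b v u := by
  rcases h with ⟨h1, h2⟩ | ⟨h1, h2⟩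
  · exact Or.inl ⟨h1.symm, h2.symm⟩
  · refine Or.inr ⟨h1.symm, ?_⟩
    rw [wt_comm hp hC, ← neg_sub]
    exact Iv_neg h2

theorem not_PAdj_self {Q : ℕ} {C : Set (J → ℕ)} {b : (J → ℕ) → ZMod 2} {u : VV p a × ZMod Q} :
    ¬ PAdj Q C b u u := by
  rintro (⟨_, h⟩ | ⟨h, _⟩)
  · exact h rfl
  · exact h rfl

/-- The graph. -/
def PG (Q : ℕ) [∀ j, NeZero (p j)] (hp : ∀ j, Odd (p j)) {C : Set (J → ℕ)}
    (hC : EvenPat a C) (b : (J → ℕ) → ZMod 2) : SimpleGraph (VV p a × ZMod Q) where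
  Adj := PAdj Q C b
  symm := ⟨fun _ _ h => PAdj_symm hp hC h⟩
  loopless := ⟨fun _ h => not_PAdj_self h⟩

section game

variable {E : Type} [DecidableEq E] (ed : J → Fin a → E)

/-- The elements of `E` that are seen by a tuple. -/
noncomputable def seen {n : ℕ} (S : Fin n → VV p a) : Finset E :=
  univ.biUnion fun j => (lvls fun s => S s j).image (ed j)

theorem mem_seen {n : ℕ} {S : Fin n → VV p a} {e : E} :
    e ∈ seen ed S ↔ ∃ j, ∃ i ∈ lvls (fun s => S s j), ed j i = e := by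
  unfold seen
  rw [mem_biUnion]
  constructor
  · rintro ⟨j, -, h⟩
    rw [mem_image] at h
    exact ⟨j, h⟩
  · rintro ⟨j, h⟩
    exact ⟨j, mem_univ _, mem_image.2 h⟩

theorem card_seen {n : ℕ} (S : Fin n → VV p a) : (seen ed S).card ≤ Fintype.card J * n := by
  unfold seen
  refine card_biUnion_le.trans ?_
  have h1 : ∀ j ∈ (univ : Finset J), ((lvls fun s => S s j).image (ed j)).card ≤ n :=
    fun j _ => card_image_le.trans (card_lvls _)
  refine (sum_le_sum h1).trans ?_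
  rw [sum_const, smul_eq_mul, card_univ]

theorem lvls_comp_sub {A : Type} [AddCommGroup A] {n m : ℕ} (S : Fin n → Fin a → A)
    (σ : Fin m → Fin n) : lvls (S ∘ σ) ⊆ lvls S := by
  intro i hi
  rw [mem_lvls] at hi ⊢
  obtain ⟨s, t, h⟩ := hi
  exact ⟨σ s, σ t, h⟩

theorem seen_comp {n m : ℕ} (S : Fin n → VV p a) (σ : Fin m → Fin n) :
    seen ed (S ∘ σ) ⊆ seen ed S := by
  intro e he
  rw [mem_seen] at he ⊢
  obtain ⟨j, i, hi, h⟩ := he
  exact ⟨j, i, lvls_comp_sub (fun s => S s j) σ hi, h⟩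

theorem seen_snoc {n : ℕ} (S : Fin n → VV p a) (x : VV p a) :
    seen ed S ⊆ seen ed (Fin.snoc (α := fun _ => VV p a) S x) := by
  have h1 : S = (Fin.snoc (α := fun _ => VV p a) S x : Fin (n + 1) → VV p a) ∘ Fin.castSucc := by
    funext s
    simp
  conv_lhs => rw [h1]
  exact seen_comp ed _ _

theorem snoc_coord {n : ℕ} (S : Fin n → VV p a) (x : VV p a) (j : J) :
    (fun s => (Fin.snoc (α := fun _ => VV p a) S x : Fin (n + 1) → VV p a) s j) =
      (Fin.snoc (α := fun _ => Fin a → ZMod (p j)) (fun s => S s j) (x j) :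
        Fin (n + 1) → Fin a → ZMod (p j)) := by
  funext s
  induction s using Fin.lastCases with
  | last => simp
  | cast s => simp

theorem seen_congr {n : ℕ} {S S' : Fin n → VV p a} {m : E → ZMod 2}
    (h : ∀ j, Comp (fun i => m (ed j i)) (fun s => S s j) (fun s => S' s j)) :
    seen ed S = seen ed S' := by
  unfold seen
  congr 1
  funext j
  rw [lvls_of_comp (h j)]

variable {ed} (S₀ : Sys (E → ZMod 2) (Finset E))

/-- The good positions. -/
def GoodV {n : ℕ} (S S' : Fin n → VV p a) : Prop :=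
  ∃ m ∈ S₀.Sol (seen ed S), ∀ j, Comp (fun i => m (ed j i)) (fun s => S s j) (fun s => S' s j)

theorem goodV_ext (hN : ∀ W, ∀ m ∈ S₀.N W, ∀ e ∈ W, m e = 0) (hsz : ∀ W, S₀.size W = W.card)
    [∀ j, NeZero (p j)] {n : ℕ} (hK : Fintype.card J * (n + 1) ≤ S₀.K) {S S' : Fin n → VV p a}
    (h : GoodV (ed := ed) S₀ S S') : ∃ φ : VV p a ≃ VV p a, ∀ x,
      GoodV (ed := ed) S₀ (Fin.snoc (α := fun _ => VV p a) S x : Fin (n + 1) → VV p a)
        (Fin.snoc (α := fun _ => VV p a) S' (φ x) : Fin (n + 1) → VV p a) := by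
  classical
  obtain ⟨m, hm, hc⟩ := h
  have hex : ∀ W : Finset E, ∃ m' : E → ZMod 2, seen ed S ⊆ W → W.card ≤ S₀.K →
      m' ∈ S₀.Sol W ∧ ∀ e ∈ seen ed S, m' e = m e := by
    intro W
    by_cases h1 : seen ed S ⊆ W ∧ W.card ≤ S₀.K
    · obtain ⟨m', h2, h3⟩ := S₀.extend _ W h1.1 (by rw [hsz]; exact h1.2) m hm
      refine ⟨m', fun _ _ => ⟨h2, fun e he => ?_⟩⟩
      have h4 := hN _ _ h3 e he
      rw [Pi.sub_apply, sub_eq_zero] at h4
      exact h4
    · exact ⟨0, fun h2 h3 => absurd ⟨h2, h3⟩ h1⟩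
  choose mm hmm using hex
  have hcard : ∀ x, (seen ed (Fin.snoc (α := fun _ => VV p a) S x : Fin (n + 1) → VV p a)).card ≤
      S₀.K := fun x => (card_seen ed _).trans hK
  set WW : VV p a → Finset E := fun x =>
    seen ed (Fin.snoc (α := fun _ => VV p a) S x : Fin (n + 1) → VV p a) with hWW
  have hc' : ∀ x j, Comp (fun i => mm (WW x) (ed j i)) (fun s => S s j) (fun s => S' s j) := by
    intro x j
    refine (hc j).congr fun i hi => ?_
    exact ((hmm (WW x) (seen_snoc ed S x) (hcard x)).2 _ ((mem_seen ed).2 ⟨j, i, hi, rfl⟩)).symm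
  choose f hf using fun x j => exists_ext (hc' x j) (x j)
  have hgood : ∀ x j, Comp (fun i => mm (WW x) (ed j i))
      (fun s => (Fin.snoc (α := fun _ => VV p a) S x : Fin (n + 1) → VV p a) s j)
      (fun s => (Fin.snoc (α := fun _ => VV p a) S' (f x) : Fin (n + 1) → VV p a) s j) := by
    intro x j
    rw [snoc_coord, snoc_coord]
    exact comp_snoc (hc' x j) (hf x j)
  have hinj : Function.Injective f := by
    intro x y hxy
    have h1 : WW x = WW y := by
      have h2 := seen_congr ed (hgood x)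
      have h3 := seen_congr ed (hgood y)
      rw [hxy] at h2
      exact h2.trans h3.symm
    funext j
    have h2 := hf x j
    have h3 := hf y j
    rw [hxy, h1] at h2
    exact ext_unique h2 h3
  refine ⟨Equiv.ofBijective f (Finite.injective_iff_bijective.1 hinj), fun x => ?_⟩
  exact ⟨mm (WW x), (hmm (WW x) (seen_snoc ed S x) (hcard x)).1, hgood x⟩

theorem goodV_restr {n m : ℕ} {S S' : Fin n → VV p a} (h : GoodV (ed := ed) S₀ S S')
    (σ : Fin m → Fin n) : GoodV (ed := ed) S₀ (S ∘ σ) (S' ∘ σ) := by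
  obtain ⟨x, hx, hc⟩ := h
  exact ⟨x, S₀.Sol_anti _ _ (seen_comp ed S σ) hx, fun j => (hc j).comp σ⟩

theorem goodV_zero {S S' : Fin 0 → VV p a} : GoodV (ed := ed) S₀ S S' := by
  have h1 : seen ed S = ∅ := by
    have := card_seen ed S
    rw [mul_zero, Nat.le_zero, card_eq_zero] at this
    exact this
  obtain ⟨m, hm⟩ := S₀.nonempty ⊥ (by rw [S₀.size_bot]; exact Nat.zero_le _)
  refine ⟨m, by rw [h1]; exact hm, fun j s => s.elim0⟩

theorem goodV_wt [∀ j, NeZero (p j)] (hp : ∀ j, Odd (p j)) {C : Set (J → ℕ)}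
    {b b' : (J → ℕ) → ZMod 2}
    (hsol : ∀ W, ∀ m ∈ S₀.Sol W, ∀ β ∈ C, (∀ j, ∀ h : β j < a, ed j ⟨β j, h⟩ ∈ W) →
      psum (fun j i => m (ed j i)) β = b' β - b β)
    {n : ℕ} {S S' : Fin n → VV p a} (h : GoodV (ed := ed) S₀ S S') (s t : Fin n) :
    (S s = S t ↔ S' s = S' t) ∧ wt C b (S s) (S t) = wt C b' (S' s) (S' t) := by
  obtain ⟨m, hm, hc⟩ := h
  have h1 : pat (S s) (S t) = pat (S' s) (S' t) := funext fun j => (hc j s t).1
  refine ⟨?_, ?_⟩
  · rw [← pat_eq_iff, ← pat_eq_iff, h1]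
  · refine wt_of_comp hp (m := fun j i => m (ed j i)) h1 (fun j i hi => (hc j s t).2 i hi)
      fun hβ => ?_
    refine hsol _ m hm _ hβ fun j hj => ?_
    exact (mem_seen ed).2 ⟨j, _, mem_lvls.2 ⟨s, t, rfl⟩, rfl⟩

/-- The game on the graphs. -/
noncomputable def gameP (Q : ℕ) [NeZero Q] (k : ℕ) [∀ j, NeZero (p j)] (hp : ∀ j, Odd (p j))
    {C : Set (J → ℕ)} (hC : EvenPat a C) (b b' : (J → ℕ) → ZMod 2)
    (hN : ∀ W, ∀ m ∈ S₀.N W, ∀ e ∈ W, m e = 0) (hsz : ∀ W, S₀.size W = W.card)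
    (hK : Fintype.card J * (k + 1) ≤ S₀.K)
    (hsol : ∀ W, ∀ m ∈ S₀.Sol W, ∀ β ∈ C, (∀ j, ∀ h : β j < a, ed j ⟨β j, h⟩ ∈ W) →
      psum (fun j i => m (ed j i)) β = b' β - b β) :
    Game k (PG Q hp hC b) (PG Q hp hC b') where
  Good n T T' := GoodV (ed := ed) S₀ (fun s => (T s).1) (fun s => (T' s).1) ∧
    ∀ s, (T s).2 = (T' s).2
  zero T T' := ⟨goodV_zero S₀, fun s => s.elim0⟩
  ext n hn T T' h := by
    obtain ⟨φ, hφ⟩ := goodV_ext S₀ hN hsz (n := n)
      ((Nat.mul_le_mul_left _ (by omega)).trans hK) h.1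
    refine ⟨Equiv.prodCongr φ (Equiv.refl _), fun x => ⟨?_, fun s => ?_⟩⟩
    · have e1 : ∀ (T : Fin n → VV p a × ZMod Q) (y : VV p a × ZMod Q),
          (fun s => ((Fin.snoc (α := fun _ => VV p a × ZMod Q) T y :
            Fin (n + 1) → VV p a × ZMod Q) s).1) =
          (Fin.snoc (α := fun _ => VV p a) (fun s => (T s).1) y.1 : Fin (n + 1) → VV p a) := by
        intro T y
        funext s
        induction s using Fin.lastCases with
        | last => simp
        | cast s => simp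
      rw [e1, e1]
      exact hφ x.1
    · induction s using Fin.lastCases with
      | last => simp
      | cast s => simpa using h.2 s
  restr n m σ T T' h := ⟨goodV_restr S₀ h.1 σ, fun s => h.2 (σ s)⟩
  iso T T' h := by
    unfold isoType
    refine Prod.ext ?_ ?_
    · funext i j
      have h1 := (goodV_wt S₀ hp hsol h.1 i j).1
      show (T i = T j) = (T' i = T' j)
      rw [Prod.ext_iff, Prod.ext_iff, h.2 i, h.2 j]
      exact propext (and_congr_left fun _ => h1)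
    · funext i j
      have h1 := goodV_wt S₀ hp hsol h.1 i j
      show PAdj Q C b (T i) (T j) = PAdj Q C b' (T' i) (T' j)
      unfold PAdj
      rw [h.2 i, h.2 j]
      have h2 : ((T i).1 = (T j).1) = ((T' i).1 = (T' j).1) := propext h1.1
      have h3 : wt C b (T i).1 (T j).1 = wt C b' (T' i).1 (T' j).1 := h1.2
      rw [h3]
      simp only [ne_eq, h2]

end game

end Pool.Agent.Y598.Circ
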