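import Pool.Agent.Y598.Circ.Chain
import Pool.Agent.Y598.Circ.Game
import Pool.Agent.TH658.Sos.Sys

/-!
# Coloured pairs of tuples of words
-/

set_option autoImplicit false
set_option linter.unusedSectionVars false

namespace Pool.Agent.Y598.Circ

open Finset Pool.Agent.TH658.Sos

/-- The half in which a residue lies. -/
def chi {p : ℕ} (z : ZMod p) : ZMod 2 := if z.val ≤ p / 2 then 0 else 1

theorem chi_neg {p : ℕ} [NeZero p] (hp : Odd p) {z : ZMod p} (hz : z ≠ 0) :
    chi (-z) = chi z + 1 := by
  obtain ⟨q, hq⟩ := hp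
  have h1 : (-z).val = p - z.val := by
    rw [ZMod.neg_val, if_neg hz]
  have h2 : z.val < p := ZMod.val_lt z
  have h3 : z.val ≠ 0 := fun h => hz ((ZMod.val_eq_zero z).1 h)
  unfold chi
  rw [h1]
  by_cases h : z.val ≤ p / 2
  · rw [if_pos h, if_neg (by omega)]
    rfl
  · rw [if_neg h, if_pos (by omega)]
    rfl

theorem chi_sg {p : ℕ} [NeZero p] (hp : Odd p) {z : ZMod p} (hz : z ≠ 0) (m : ZMod 2) :
    chi (sg m • z) = chi z + m := by
  have h : ∀ m : ZMod 2, m = 0 ∨ m = 1 := by decide
  rcases h m with rfl | rfl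
  · rw [sg_zero, one_smul, add_zero]
  · have h1 : sg 1 = -1 := rfl
    rw [h1, neg_smul, one_smul, chi_neg hp hz]

variable {J : Type} [Fintype J] [DecidableEq J]

/-- The tuples of words. -/
abbrev VV (p : J → ℕ) (a : ℕ) : Type := (j : J) → Fin a → ZMod (p j)

variable {p : J → ℕ} {a : ℕ}

/-- The levels at which the words of two tuples branch. -/
noncomputable def pat (x y : VV p a) (j : J) : ℕ := br (x j) (y j)

theorem pat_lt (x y : VV p a) (j : J) : pat x y j < a + 1 := Nat.lt_succ_of_le (br_le _ _)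

theorem pat_comm (x y : VV p a) : pat x y = pat y x := funext fun _ => br_comm _ _

theorem pat_eq_iff {x y : VV p a} : (∀ j, pat x y j = a) ↔ x = y := by
  constructor
  · intro h
    funext j
    exact br_eq_top.1 (h j)
  · rintro rfl j
    exact br_self _

/-- The orientation of a pair. -/
noncomputable def orient (x y : VV p a) : ZMod 2 :=
  ∑ j, if h : pat x y j < a then chi (x j ⟨pat x y j, h⟩ - y j ⟨pat x y j, h⟩) else 0

open Classical in
/-- The bit of information which is seen at a pair. -/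
noncomputable def inf (C : Set (J → ℕ)) (b : (J → ℕ) → ZMod 2) (x y : VV p a) : ZMod 2 :=
  if pat x y ∈ C then orient x y + b (pat x y) else 0

/-- The colour of a pair. -/
noncomputable def wt (C : Set (J → ℕ)) (b : (J → ℕ) → ZMod 2) (x y : VV p a) : ℕ :=
  (Fintype.equivFin ((J → Fin (a + 1)) × ZMod 2)
    (fun j => ⟨pat x y j, pat_lt x y j⟩, inf C b x y)).val

/-- The number of colours. -/
noncomputable def numCol (J : Type) [Fintype J] [DecidableEq J] (a : ℕ) : ℕ :=
  Fintype.card ((J → Fin (a + 1)) × ZMod 2)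

theorem wt_lt (C : Set (J → ℕ)) (b : (J → ℕ) → ZMod 2) (x y : VV p a) :
    wt C b x y < numCol J a := Fin.isLt _

theorem numCol_eq : numCol J a = (a + 1) ^ Fintype.card J * 2 := by
  unfold numCol
  rw [Fintype.card_prod, Fintype.card_fun, Fintype.card_fin, ZMod.card]

theorem wt_eq_iff {C : Set (J → ℕ)} {b b' : (J → ℕ) → ZMod 2} {x y x' y' : VV p a} :
    wt C b x y = wt C b' x' y' ↔ pat x y = pat x' y' ∧ inf C b x y = inf C b' x' y' := by
  unfold wt
  rw [Fin.val_inj, (Fintype.equivFin _).injective.eq_iff, Prod.mk.injEq]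
  refine and_congr_left fun _ => ?_
  constructor
  · intro h
    funext j
    exact congrArg Fin.val (congrFun h j)
  · intro h
    funext j
    exact Fin.ext (congrFun h j)

theorem orient_comm [∀ j, NeZero (p j)] (hp : ∀ j, Odd (p j)) {x y : VV p a}
    (h : Even (univ.filter fun j => pat x y j < a).card) : orient x y = orient y x := by
  have h1 : ∀ j, (if h : pat x y j < a then chi (x j ⟨pat x y j, h⟩ - y j ⟨pat x y j, h⟩) else 0) =
      (if h : pat y x j < a then chi (y j ⟨pat y x j, h⟩ - x j ⟨pat y x j, h⟩) else 0) +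
      (if pat x y j < a then 1 else 0) := by
    intro j
    have e : pat y x = pat x y := pat_comm y x
    rw [e]
    by_cases h2 : pat x y j < a
    · rw [dif_pos h2, dif_pos h2, if_pos h2]
      have h3 : x j ⟨pat x y j, h2⟩ ≠ y j ⟨pat x y j, h2⟩ := ne_of_eq_br rfl
      rw [← chi_neg (hp j) (sub_ne_zero.2 h3.symm), neg_sub]
    · rw [dif_neg h2, dif_neg h2, if_neg h2, add_zero]
  unfold orient
  rw [sum_congr rfl fun j _ => h1 j, sum_add_distrib, sum_boole]
  have h2 : (((univ.filter fun j => pat x y j < a).card : ℕ) : ZMod 2) = 0 := by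
    rw [ZMod.natCast_eq_zero_iff]
    exact h.two_dvd
  rw [h2, add_zero]

theorem wt_comm [∀ j, NeZero (p j)] (hp : ∀ j, Odd (p j)) {C : Set (J → ℕ)}
    (hC : ∀ β ∈ C, Even (univ.filter fun j => β j < a).card) (b : (J → ℕ) → ZMod 2)
    (x y : VV p a) : wt C b x y = wt C b y x := by
  rw [wt_eq_iff]
  refine ⟨pat_comm x y, ?_⟩
  unfold inf
  rw [pat_comm y x]
  by_cases h : pat x y ∈ C
  · rw [if_pos h, if_pos h, orient_comm hp (hC _ h)]
  · rw [if_neg h, if_neg h]

/-- The sum of the values at the levels of a pattern. -/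
def psum (m : J → Fin a → ZMod 2) (β : J → ℕ) : ZMod 2 :=
  ∑ j, if h : β j < a then m j ⟨β j, h⟩ else 0

theorem wt_of_comp [∀ j, NeZero (p j)] (hp : ∀ j, Odd (p j)) {C : Set (J → ℕ)}
    {b b' : (J → ℕ) → ZMod 2} {x y x' y' : VV p a} {m : J → Fin a → ZMod 2}
    (h1 : pat x y = pat x' y')
    (h2 : ∀ j, ∀ i : Fin a, (i : ℕ) = pat x y j → x' j i - y' j i = sg (m j i) • (x j i - y j i))
    (h3 : pat x y ∈ C → psum m (pat x y) = b' (pat x y) - b (pat x y)) :
    wt C b x y = wt C b' x' y' := by
  rw [wt_eq_iff]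
  refine ⟨h1, ?_⟩
  unfold inf
  rw [← h1]
  by_cases h : pat x y ∈ C
  · rw [if_pos h, if_pos h]
    have h4 : orient x' y' = orient x y + psum m (pat x y) := by
      unfold orient psum
      rw [← sum_add_distrib, ← h1]
      refine sum_congr rfl fun j _ => ?_
      by_cases h5 : pat x y j < a
      · rw [dif_pos h5, dif_pos h5, dif_pos h5, h2 j ⟨pat x y j, h5⟩ rfl, chi_sg (hp j)]
        have h6 : x j ⟨pat x y j, h5⟩ ≠ y j ⟨pat x y j, h5⟩ := ne_of_eq_br rfl
        exact sub_ne_zero.2 h6
      · rw [dif_neg h5, dif_neg h5, dif_neg h5, add_zero]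
    rw [h4, h3 h]
    have h5 : ∀ r s t : ZMod 2, r + s = r + (t - s) + t := by decide
    exact h5 _ _ _
  · rw [if_neg h, if_neg h]

/-- From a colour preserving bijection to a solution of the system. -/
theorem solution_of_bij [∀ j, NeZero (p j)] (hp : ∀ j, 3 ≤ p j) {C : Set (J → ℕ)}
    {b b' : (J → ℕ) → ZMod 2} (f : VV p a → VV p a)
    (hf : ∀ x y, x ≠ y → wt C b x y = wt C b' (f x) (f y)) :
    ∃ m : J → Fin a → ZMod 2, ∀ β ∈ C, (∀ j, β j ≤ a) → (∃ j, β j < a) →
      psum m β = b' β - b β := by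
  have hpat : ∀ x y, pat x y = pat (f x) (f y) := by
    intro x y
    by_cases h : x = y
    · subst h
      funext j
      show br _ _ = br _ _
      rw [br_self, br_self]
    · exact (wt_eq_iff.1 (hf x y h)).1
  let g : ∀ j, (Fin a → ZMod (p j)) → (Fin a → ZMod (p j)) := fun j u =>
    f (Function.update 0 j u) j
  have hg : ∀ x j, f x j = g j (x j) := by
    intro x j
    have h1 := congrFun (hpat x (Function.update 0 j (x j))) j
    have h2 : pat x (Function.update 0 j (x j)) j = a := by
      show br _ _ = a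
      rw [Function.update_self, br_self]
    rw [h2] at h1
    exact br_eq_top.1 h1.symm
  refine ⟨fun j i => chi (g j (Pi.single i 1) i - g j 0 i), fun β hβ hβa hβe => ?_⟩
  let x : VV p a := fun j => if h : β j < a then Pi.single ⟨β j, h⟩ 1 else 0
  have hone : ∀ j, (1 : ZMod (p j)).val = 1 := fun j => ZMod.val_one'' (by have := hp j; omega)
  have hone0 : ∀ j, (1 : ZMod (p j)) ≠ 0 := fun j h => by
    have h1 := hone j
    rw [h, ZMod.val_zero] at h1
    omega
  have hx : pat x 0 = β := by
    funext j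
    by_cases h : β j < a
    · have h1 : x j = Pi.single ⟨β j, h⟩ 1 := dif_pos h
      show br (x j) 0 = β j
      rw [h1]
      refine br_eq (i := ⟨β j, h⟩) (fun l hl => ?_) ?_
      · rw [Pi.single_eq_of_ne hl.ne]
        rfl
      · rw [Pi.single_eq_same]
        exact hone0 j
    · have h1 : x j = 0 := dif_neg h
      show br (x j) 0 = β j
      rw [h1]
      have h2 : br (0 : Fin a → ZMod (p j)) 0 = a := br_self _
      rw [h2]
      have := hβa j
      omega
  have hx0 : x ≠ 0 := by
    intro h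
    obtain ⟨j, hj⟩ := hβe
    have h1 := congrFun hx j
    rw [h] at h1
    have h2 : pat (0 : VV p a) 0 j = a := br_self _
    omega
  have h1 := (wt_eq_iff.1 (hf x 0 hx0)).2
  unfold inf at h1
  rw [← hpat, hx, if_pos hβ, if_pos hβ] at h1
  have h2 : orient x 0 = 0 := by
    unfold orient
    refine sum_eq_zero fun j _ => ?_
    rw [hx]
    by_cases h : β j < a
    · rw [dif_pos h]
      have h3 : x j = Pi.single ⟨β j, h⟩ 1 := dif_pos h
      rw [h3, Pi.single_eq_same]
      show chi ((1 : ZMod (p j)) - 0) = 0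
      rw [sub_zero]
      unfold chi
      rw [hone j, if_pos]
      have := hp j
      omega
    · rw [dif_neg h]
  have h3 : orient (f x) (f 0) = psum (fun j i => chi (g j (Pi.single i 1) i - g j 0 i)) β := by
    unfold orient psum
    rw [← hpat, hx]
    refine sum_congr rfl fun j _ => ?_
    by_cases h : β j < a
    · rw [dif_pos h, dif_pos h, hg, hg]
      have h3 : x j = Pi.single ⟨β j, h⟩ 1 := dif_pos h
      rw [h3]
      rfl
    · rw [dif_neg h, dif_neg h]
  rw [h2, h3, zero_add] at h1
  have h5 : ∀ r s t : ZMod 2, r = s + t → s = t - r := by decide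
  exact h5 _ _ _ h1

end Pool.Agent.Y598.Circ
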